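import Mathlib
import Pool.Agent.Lib.MP_52d9f3_co.Defs
import Pool.Agent.Lib.MP_52d9f3_co.Upper
import Pool.Agent.Lib.MP_52d9f3_co.Lower

/-!
For every gap size `r` and every large pattern length `m`, some `q ∈ S_m` has strictly more avoiders
of `dist_r(q)` than the increasing pattern, for all large `n`.
-/

namespace Pool.Agent.Results.MP_52d9f3_co.Disproof

open Pool.Agent.Lib.MP_52d9f3_co

theorem result (r : ℕ) :
    ∃ m₀ : ℕ, ∀ m : ℕ, m₀ ≤ m → ∃ q : Equiv.Perm (Fin m), ∃ n₀ : ℕ, ∀ n : ℕ, n₀ ≤ n →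
      avCount r n (1 : Equiv.Perm (Fin m)) < avCount r n q := by
  classical
  obtain ⟨h₀, hh₀⟩ := exists_threshold (16 * (r + 1) ^ 2 * 40 ^ 4)
  refine ⟨(40 * (h₀ + 2) ^ 3) ^ 2, fun m hm => ?_⟩
  -- the largest admissible depth
  have hex : ∃ t, m < (40 * (h₀ + t + 3) ^ 3) ^ 2 := by
    refine ⟨m, ?_⟩
    have e1 : m < h₀ + m + 3 := by omega
    have e2 : h₀ + m + 3 ≤ (h₀ + m + 3) ^ 3 := Nat.le_self_pow (by norm_num) _
    have e3 : 40 * (h₀ + m + 3) ^ 3 ≤ (40 * (h₀ + m + 3) ^ 3) ^ 2 := Nat.le_self_pow (by norm_num) _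
    omega
  obtain ⟨h, hh, h1, h2⟩ : ∃ h, h₀ ≤ h ∧ (40 * (h + 2) ^ 3) ^ 2 ≤ m ∧ m < (40 * (h + 3) ^ 3) ^ 2 := by
    refine ⟨h₀ + Nat.find hex, by omega, ?_, Nat.find_spec hex⟩
    rcases Nat.eq_zero_or_pos (Nat.find hex) with h0 | h0
    · rw [h0]; exact hm
    · have := Nat.find_min hex (m := Nat.find hex - 1) (by omega)
      have e : h₀ + (Nat.find hex - 1) + 3 = h₀ + Nat.find hex + 2 := by omega
      rw [e] at this
      exact not_lt.mp this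
  obtain ⟨l, hl⟩ : ∃ l, l + 2 = 40 * (h + 1 + 1) ^ 3 := by
    refine ⟨40 * (h + 1 + 1) ^ 3 - 2, ?_⟩
    have : 0 < (h + 1 + 1) ^ 3 := by positivity
    omega
  obtain ⟨e, rfl⟩ : ∃ e, m = (l + 2) * (l + 2) + e := by
    refine ⟨m - (l + 2) * (l + 2), ?_⟩
    have : (l + 2) * (l + 2) ≤ m := by rw [hl, ← sq]; exact h1
    omega
  refine ⟨extendPerm (gridPerm (l + 2)) e, 2 ^ (h + 1) + 1, fun n hn => ?_⟩
  refine lt_of_lt_of_le ?_ (avCount_le_extend _ e r n)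
  have hlow := lower_bound h l hl r n
  obtain ⟨k, hk⟩ : ∃ k, (l + 2) * (l + 2) + e = k + 1 :=
    ⟨(l + 2) * (l + 2) + e - 1, by have : 0 < (l + 2) * (l + 2) := by positivity
                                   omega⟩
  have hup : avCount r n (1 : Equiv.Perm (Fin ((l + 2) * (l + 2) + e)))
      ≤ ((r + 1) * ((l + 2) * (l + 2) + e)) ^ (2 * n) := by
    rw [hk]; exact avCount_one_le r n k
  generalize (l + 2) * (l + 2) + e = m at *
  have hU : 16 * ((r + 1) * m) ^ 2 ≤ 2 ^ h := by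
    refine le_trans ?_ (hh₀ h hh)
    have : m ^ 2 ≤ ((40 * (h + 3) ^ 3) ^ 2) ^ 2 := Nat.pow_le_pow_left h2.le 2
    calc 16 * ((r + 1) * m) ^ 2 = 16 * (r + 1) ^ 2 * m ^ 2 := by ring
      _ ≤ 16 * (r + 1) ^ 2 * ((40 * (h + 3) ^ 3) ^ 2) ^ 2 := Nat.mul_le_mul_left _ this
      _ = _ := by ring
  by_contra hc
  push Not at hc
  have h3 : (16 * ((r + 1) * m) ^ 2) ^ n ≤ ((r + 1) * m) ^ (2 * n) * 2 ^ (3 * n + 2 ^ (h + 1)) :=
    calc _ ≤ (2 ^ h) ^ n := Nat.pow_le_pow_left hU n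
      _ ≤ _ := hlow
      _ ≤ _ := Nat.mul_le_mul_right _ (hc.trans hup)
  have h4 : (16 * ((r + 1) * m) ^ 2) ^ n = ((r + 1) * m) ^ (2 * n) * 2 ^ (4 * n) := by
    rw [mul_pow, pow_mul, pow_mul, mul_comm]; norm_num
  rw [h4] at h3
  have h5 : 0 < ((r + 1) * m) ^ (2 * n) := by rw [hk]; positivity
  have h6 := Nat.le_of_mul_le_mul_left h3 h5
  have h7 := (Nat.pow_le_pow_iff_right (by norm_num : 1 < 2)).mp h6
  omega

end Pool.Agent.Results.MP_52d9f3_co.Disproof
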